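import Pool.Agent.H662.UA.Stm

/-!
# Task AV: the infinite tree avoids the language
-/

set_option autoImplicit false

namespace Pool.Agent.H662.UA

namespace XAV

theorem snd_eq (j m : ℕ) (hm : m % 2 = 1) : (Wf (2 ^ j * m)).2 = decide (m % 4 = 3) := by
  have hm0 : m ≠ 0 := by omega
  have h1 : padicValNat 2 (2 ^ j * m) = j := by
    rw [padicValNat.mul (pow_ne_zero _ two_ne_zero) hm0, padicValNat.prime_pow,
      padicValNat.eq_zero_of_not_dvd (by omega), add_zero]
  unfold Wf
  rw [h1, Nat.mul_div_cancel_left m (pow_pos two_pos j)]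

theorem fst_eq (n : ℕ) : (Wf n).1 = decide (n % 2 = 0) := rfl

theorem fc_length (x : ℕ → Lt) (a len : ℕ) : (fc x a len).length = len := by
  unfold fc
  rw [List.length_map, List.length_range]

theorem fc_get (x : ℕ → Lt) (a len i : ℕ) (hi : i < len) : (fc x a len)[i]? = some (x (a + i)) := by
  unfold fc
  rw [List.getElem?_map, List.getElem?_range hi]
  rfl

theorem fc_succ (x : ℕ → Lt) (a len : ℕ) : fc x a (len + 1) = x a :: fc x (a + 1) len := by
  unfold fc
  rw [List.range_succ_eq_map, List.map_cons, List.map_map, add_zero]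
  congr 1
  refine List.map_congr_left fun i _ => ?_
  change x (a + (i + 1)) = x (a + 1 + i)
  rw [show a + (i + 1) = a + 1 + i by omega]

theorem fc_last (x : ℕ → Lt) (a len : ℕ) : fc x a (len + 1) = fc x a len ++ [x (a + len)] := by
  unfold fc
  rw [List.range_succ, List.map_append, List.map_cons, List.map_nil]

end XAV

open XAV in
theorem t_AV (hAV2 : S_AV2) : S_AV := by
  intro a len ha h
  generalize hw : fc Wf a len = w at h
  cases h with
  | ll x y =>
    have hl := congrArg List.length hw
    rw [fc_length] at hl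
    change len = 2 at hl
    subst hl
    have h0 := fc_get Wf a 2 0 (by omega)
    have h1 := fc_get Wf a 2 1 (by omega)
    rw [hw] at h0 h1
    have e0 : lf x = Wf (a + 0) := Option.some.inj h0
    have e1 : lf y = Wf (a + 1) := Option.some.inj h1
    have f0 : false = decide ((a + 0) % 2 = 0) := congrArg Prod.fst e0
    have f1 : false = decide ((a + 1) % 2 = 0) := congrArg Prod.fst e1
    have g0 := of_decide_eq_false f0.symm
    have g1 := of_decide_eq_false f1.symm
    omega
  | nn x y =>
    have hl := congrArg List.length hw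
    rw [fc_length] at hl
    change len = 2 at hl
    subst hl
    have h0 := fc_get Wf a 2 0 (by omega)
    have h1 := fc_get Wf a 2 1 (by omega)
    rw [hw] at h0 h1
    have e0 : nd x = Wf (a + 0) := Option.some.inj h0
    have e1 : nd y = Wf (a + 1) := Option.some.inj h1
    have f0 : true = decide ((a + 0) % 2 = 0) := congrArg Prod.fst e0
    have f1 : true = decide ((a + 1) % 2 = 0) := congrArg Prod.fst e1
    have g0 := of_decide_eq_true f0.symm
    have g1 := of_decide_eq_true f1.symm
    omega
  | lnl x y =>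
    have hl := congrArg List.length hw
    rw [fc_length] at hl
    change len = 3 at hl
    subst hl
    have h0 := fc_get Wf a 3 0 (by omega)
    have h2 := fc_get Wf a 3 2 (by omega)
    rw [hw] at h0 h2
    have e0 : lf x = Wf (a + 0) := Option.some.inj h0
    have e2 : lf x = Wf (a + 2) := Option.some.inj h2
    have f0 : false = decide ((a + 0) % 2 = 0) := congrArg Prod.fst e0
    have g0 := of_decide_eq_false f0.symm
    have k0 := snd_eq 0 (a + 0) (by omega)
    have k2 := snd_eq 0 (a + 2) (by omega)
    rw [pow_zero, one_mul, ← e0] at k0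
    rw [pow_zero, one_mul, ← e2] at k2
    have k3 : decide ((a + 0) % 4 = 3) = decide ((a + 2) % 4 = 3) := k0.symm.trans k2
    rw [decide_eq_decide] at k3
    omega
  | alt b h hh =>
    have hl := congrArg List.length hw
    rw [fc_length] at hl
    rw [List.length_append, List.length_append, List.length_singleton] at hl
    obtain ⟨n, hn⟩ : ∃ n, n = h.length := ⟨_, rfl⟩
    rw [← hn] at hl
    have hl' : len = (n + 1) + 1 := by omega
    subst hl'
    rw [fc_succ, fc_last] at hw
    have hw2 : Wf a :: (fc Wf (a + 1) n ++ [Wf (a + 1 + n)]) = nd b :: (h ++ [nd b]) := hw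
    rw [List.cons.injEq] at hw2
    obtain ⟨e0, e1⟩ := hw2
    obtain ⟨e2, e3⟩ := List.append_inj e1 (by rw [fc_length, hn])
    rw [List.cons.injEq] at e3
    have e4 := e3.1
    rw [← e2] at hh
    obtain ⟨i, c, ⟨d, hd⟩, hc1, hc2⟩ := hAV2 (a + 1) n (by omega) hh
    have hp : 2 ^ (i + 2) = 2 * 2 ^ (i + 1) := by ring
    have hpos : 0 < 2 ^ (i + 1) := pow_pos two_pos _
    have hd0 : d ≠ 0 := by
      rintro rfl
      omega
    obtain ⟨m, rfl⟩ : ∃ m, d = m + 1 := ⟨d - 1, by omega⟩
    have ea : a = 2 ^ (i + 1) * (2 * m + 1) := by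
      have h3 : a + 2 ^ (i + 1) = 2 ^ (i + 2) * (m + 1) := by omega
      rw [hp] at h3
      have h4 : 2 * 2 ^ (i + 1) * (m + 1) = 2 ^ (i + 1) * (2 * m + 1) + 2 ^ (i + 1) := by ring
      omega
    have eb : a + 1 + n = 2 ^ (i + 1) * (2 * m + 3) := by
      have h3 : a + 1 + n = a + 2 * 2 ^ (i + 1) := by omega
      rw [h3, ea]
      ring
    have k0 := snd_eq (i + 1) (2 * m + 1) (by omega)
    have k1 := snd_eq (i + 1) (2 * m + 3) (by omega)
    rw [← ea, e0] at k0
    rw [← eb, e4] at k1
    have k2 : decide ((2 * m + 1) % 4 = 3) = decide ((2 * m + 3) % 4 = 3) := k0.symm.trans k1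
    rw [decide_eq_decide] at k2
    omega

end Pool.Agent.H662.UA
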