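import Pool.Agent.H662.UA.Stm

set_option autoImplicit false

namespace Pool.Agent.H662.UA

namespace XAV1

theorem val_eq (k m : ℕ) (hm : m % 2 = 1) : padicValNat 2 (2 ^ k * m) = k := by
  have h0 : m ≠ 0 := by
    intro h
    rw [h] at hm
    norm_num at hm
  rw [padicValNat.mul (pow_ne_zero _ two_ne_zero) h0, padicValNat.prime_pow,
    padicValNat.eq_zero_of_not_dvd, add_zero]
  intro h
  omega

theorem Wf_snd (k m : ℕ) (hm : m % 2 = 1) : (Wf (2 ^ k * m)).2 = decide (m % 4 = 3) := by
  unfold Wf
  rw [val_eq k m hm, Nat.mul_div_cancel_left _ (by positivity)]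

theorem fc_length (x : ℕ → Lt) (a n : ℕ) : (fc x a n).length = n := by
  simp [fc]

theorem fc_add (x : ℕ → Lt) (a p q : ℕ) : fc x a (p + q) = fc x a p ++ fc x (a + p) q := by
  unfold fc
  rw [List.range_add, List.map_append, List.map_map]
  refine congrArg (fun l => List.map (fun i => x (a + i)) (List.range p) ++ l) ?_
  refine List.map_congr_left fun i _ => ?_
  simp only [Function.comp_apply, add_assoc]

theorem fc_one (x : ℕ → Lt) (a : ℕ) : fc x a 1 = [x a] := by
  simp [fc]

theorem split (x : ℕ → Lt) (u v : List Lt) (y : Lt) (a n : ℕ) (h : u ++ [y] ++ v = fc x a n) :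
    n = u.length + 1 + v.length ∧ u = fc x a u.length ∧ x (a + u.length) = y ∧
      v = fc x (a + u.length + 1) v.length := by
  have hn : n = u.length + 1 + v.length := by
    have h1 := congrArg List.length h
    rw [fc_length, List.length_append, List.length_append, List.length_singleton] at h1
    exact h1.symm
  rw [hn, fc_add, fc_add, fc_one] at h
  have h1 := List.append_inj h (by
    rw [List.length_append, List.length_append, fc_length, List.length_singleton,
      List.length_singleton])
  have h2 := List.append_inj h1.1 (by rw [fc_length])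
  refine ⟨hn, h2.1, ?_, ?_⟩
  · have h3 := h2.2
    simp only [List.cons.injEq, and_true] at h3
    exact h3.symm
  · rw [add_assoc]
    exact h1.2

theorem uniq (k l m n : ℕ) (hm : m % 2 = 1) (hn : n % 2 = 1) (h : 2 ^ k * m = 2 ^ l * n) :
    k = l := by
  rw [← val_eq k m hm, h, val_eq l n hn]

theorem main (b : Bool) (w : List Lt) (hw : Tr b w) : ∀ a len : ℕ, 1 ≤ a → w = fc Wf a len →
    ∃ k m, m % 4 = (if b = true then 3 else 1) ∧ a + 2 ^ k = 2 ^ k * m + 1 ∧
      len + 1 = 2 ^ (k + 1) := by
  induction hw with
  | leaf b =>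
    intro a len ha h
    have hl : len = 1 := by
      have h1 := congrArg List.length h
      rw [fc_length, List.length_singleton] at h1
      exact h1.symm
    subst hl
    rw [fc_one] at h
    simp only [List.cons.injEq, and_true] at h
    have h1 : decide (a % 2 = 0) = false := by
      have h2 := congrArg Prod.fst h
      exact h2.symm
    have h1' : a % 2 = 1 := by
      have h2 := of_decide_eq_false h1
      omega
    have h3 : decide (a % 4 = 3) = b := by
      have h4 := Wf_snd 0 a h1'
      rw [pow_zero, one_mul, ← h] at h4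
      exact h4.symm
    refine ⟨0, a, ?_, ?_, ?_⟩
    · cases b with
      | false =>
        have h5 := of_decide_eq_false h3
        rw [if_neg (by decide)]
        omega
      | true =>
        have h5 := of_decide_eq_true h3
        rw [if_pos rfl]
        exact h5
    · rw [pow_zero, one_mul]
    · norm_num
  | node b u v hu hv ihu ihv =>
    intro a len ha h
    obtain ⟨hn, h1, h2, h3⟩ := split Wf u v (nd b) a len h
    obtain ⟨k, m, hm, ham, hp⟩ := ihu a u.length ha h1
    obtain ⟨l, n, hn4, han, hq⟩ := ihv (a + u.length + 1) v.length (by omega) h3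
    rw [if_neg (by decide)] at hm
    rw [if_pos rfl] at hn4
    obtain ⟨m', rfl⟩ : ∃ m', m = 4 * m' + 1 := ⟨m / 4, by omega⟩
    obtain ⟨n', rfl⟩ : ∃ n', n = 4 * n' + 3 := ⟨n / 4, by omega⟩
    have e1 : a + u.length = 2 ^ (k + 1) * (2 * m' + 1) := by
      have h4 : 2 ^ (k + 1) * (2 * m' + 1) = 2 ^ k * (4 * m' + 1) + 2 ^ k := by ring
      have h5 : 2 ^ (k + 1) = 2 ^ k + 2 ^ k := by ring
      omega
    have e2 : a + u.length = 2 ^ (l + 1) * (2 * n' + 1) := by
      have h4 : 2 ^ (l + 1) * (2 * n' + 1) + 2 ^ l = 2 ^ l * (4 * n' + 3) := by ring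
      omega
    have e3 : k + 1 = l + 1 := uniq _ _ (2 * m' + 1) (2 * n' + 1) (by omega) (by omega)
      (e1.symm.trans e2)
    have e4 : l = k := by omega
    subst e4
    have h6 : decide ((2 * m' + 1) % 4 = 3) = b := by
      have h7 := Wf_snd (l + 1) (2 * m' + 1) (by omega)
      rw [← e1, h2] at h7
      exact h7.symm
    refine ⟨l + 1, 2 * m' + 1, ?_, ?_, ?_⟩
    · cases b with
      | false =>
        have h5 := of_decide_eq_false h6
        rw [if_neg (by decide)]
        omega
      | true =>
        have h5 := of_decide_eq_true h6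
        rw [if_pos rfl]
        exact h5
    · omega
    · have h8 : 2 ^ (l + 1 + 1) = 2 ^ (l + 1) + 2 ^ (l + 1) := by ring
      omega

end XAV1

theorem t_AV1 : S_AV1 := fun b a len ha h => XAV1.main b _ h a len ha rfl

end Pool.Agent.H662.UA
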