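import Pool.Agent.H662.UA.Stm

/-!
# AV2: the middle factors of the infinite tree word
-/

set_option autoImplicit false

namespace Pool.Agent.H662.UA

namespace XAV2

lemma fc_length (x : ℕ → Lt) (a n : ℕ) : (fc x a n).length = n := by
  simp [fc]

lemma fc_add (x : ℕ → Lt) (a m n : ℕ) : fc x a (m + n) = fc x a m ++ fc x (a + m) n := by
  unfold fc
  rw [List.range_add, List.map_append, List.map_map]
  refine congrArg₂ _ rfl ?_
  apply List.map_congr_left
  intro i _
  simp [Function.comp, add_assoc]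

lemma fc_one (x : ℕ → Lt) (a : ℕ) : fc x a 1 = [x a] := by
  simp [fc]

lemma split (x : ℕ → Lt) (a : ℕ) (u v : List Lt) (h : u ++ v = fc x a (u ++ v).length) :
    u = fc x a u.length ∧ v = fc x (a + u.length) v.length := by
  rw [List.length_append, fc_add] at h
  exact List.append_inj h (by rw [fc_length])

lemma split_one (x : ℕ → Lt) (a : ℕ) (z : Lt) (h : [z] = fc x a [z].length) : x a = z := by
  have h1 : [z].length = 1 := rfl
  rw [h1, fc_one] at h
  exact (List.cons.inj h).1.symm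

lemma val (k m : ℕ) (hm : m % 2 = 1) : padicValNat 2 (2 ^ k * m) = k := by
  have hm0 : m ≠ 0 := by rintro rfl; simp at hm
  have := Fact.mk Nat.prime_two
  rw [padicValNat.mul (by positivity) hm0, padicValNat.prime_pow,
    padicValNat.eq_zero_of_not_dvd (by omega), add_zero]

lemma uniq {k j m n : ℕ} (hm : m % 2 = 1) (hn : n % 2 = 1) (h : 2 ^ k * m = 2 ^ j * n) :
    k = j ∧ m = n := by
  have h1 : k = j := by rw [← val k m hm, h, val j n hn]
  subst h1
  exact ⟨rfl, Nat.eq_of_mul_eq_mul_left (by positivity) h⟩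

lemma letter (k m : ℕ) (hm : m % 2 = 1) :
    Wf (2 ^ k * m) = (decide ((2 ^ k * m) % 2 = 0), decide (m % 4 = 3)) := by
  unfold Wf
  rw [val k m hm, Nat.mul_div_cancel_left m (by positivity)]

lemma letter_true (k m : ℕ) (hm : m % 2 = 1) {e : Bool} (h : Wf (2 ^ k * m) = (e, true)) :
    m % 4 = 3 := by
  rw [letter k m hm] at h
  simpa using congrArg Prod.snd h

/-- the letters at odd positions -/
lemma odd_letter {n : ℕ} {b : Bool} (h : Wf n = lf b) : n % 2 = 1 ∧ (n % 4 = 3 ↔ b = true) := by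
  have h1 : n % 2 = 1 := by
    have := congrArg Prod.fst h
    simp only [Wf, lf, decide_eq_false_iff_not] at this
    omega
  refine ⟨h1, ?_⟩
  have h2 := letter 0 n h1
  rw [pow_zero, one_mul, h] at h2
  have h3 := congrArg Prod.snd h2
  simp only [lf] at h3
  rw [h3]
  simp

theorem key (hAV1 : S_AV1) (w : List Lt) (hw : HH w) : ∀ a, 1 ≤ a → w = fc Wf a w.length →
    ∃ i c, 2 ^ (i + 2) ∣ c ∧ a + 2 ^ (i + 1) = c + 1 ∧ w.length + 1 = 2 ^ (i + 2) := by
  induction hw with
  | base x =>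
    intro a ha h
    have h1 : ([lf true] : List Lt) ++ [nd x, lf false] =
        fc Wf a ([lf true] ++ [nd x, lf false]).length := h
    obtain ⟨h2, h3⟩ := split _ _ _ _ h1
    have h4 : ([nd x] : List Lt) ++ [lf false] =
        fc Wf (a + [lf true].length) ([nd x] ++ [lf false]).length := h3
    obtain ⟨h5, h6⟩ := split _ _ _ _ h4
    have h7 := odd_letter (split_one _ _ _ h2)
    have h8 := odd_letter (split_one _ _ _ h6)
    simp only [List.length_cons, List.length_nil] at h8 ⊢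
    refine ⟨0, a + 1, ?_, by norm_num, by norm_num⟩
    have h9 := h7.2.2 rfl
    norm_num
    omega
  | step u h v hu hh hv ih =>
    intro a ha hw
    obtain ⟨h1, h2⟩ := split _ _ _ _ hw
    obtain ⟨h3, h4⟩ := split _ _ _ _ h1
    obtain ⟨h5, h6⟩ := split _ _ _ _ h3
    obtain ⟨h7, h8⟩ := split _ _ _ _ h5
    have h9 := split_one _ _ _ h8
    simp only [List.length_append, List.length_cons, List.length_nil, zero_add] at h2 h6 ⊢
    rw [h7] at hu
    rw [h2] at hv
    obtain ⟨k, m, hm, hk1, hk2⟩ := hAV1 false a _ ha hu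
    obtain ⟨k', m', hm', hk1', hk2'⟩ := hAV1 true _ _ (by omega) hv
    obtain ⟨i, c, hc, hi1, hi2⟩ := ih (a + (u.length + 1)) (by omega) h6
    simp only [Bool.false_eq_true, if_false] at hm
    simp only [if_true] at hm'
    obtain ⟨d, rfl⟩ := hc
    have e1 : (2 : ℕ) ^ (k + 1) = 2 * 2 ^ k := by ring
    have e2 : (2 : ℕ) ^ (k' + 1) = 2 * 2 ^ k' := by ring
    have e3 : (2 : ℕ) ^ (i + 2) = 2 * 2 ^ (i + 1) := by ring
    -- the position before `h`
    have hd : 1 ≤ d := by
      rcases Nat.eq_zero_or_pos d with rfl | hd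
      · have := Nat.one_le_two_pow (n := i + 1)
        omega
      · exact hd
    have p1 : a + u.length = 2 ^ (i + 1) * (2 * d - 1) := by
      have : 2 ^ (i + 1) * (2 * d - 1) + 2 ^ (i + 1) = 2 ^ (i + 2) * d := by
        obtain ⟨d', rfl⟩ : ∃ d', d = d' + 1 := ⟨d - 1, by omega⟩
        have : 2 * (d' + 1) - 1 = 2 * d' + 1 := by omega
        rw [this]
        ring
      omega
    obtain ⟨n, rfl⟩ : ∃ n, m = 4 * n + 1 := ⟨m / 4, by omega⟩
    obtain ⟨n', rfl⟩ : ∃ n', m' = 4 * n' + 3 := ⟨m' / 4, by omega⟩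
    have p2 : a + u.length = 2 ^ (k + 1) * (2 * n + 1) := by
      have : 2 ^ (k + 1) * (2 * n + 1) = 2 ^ k * (4 * n + 1) + 2 ^ k := by ring
      omega
    have p3 : a + (u.length + 1 + h.length) = 2 ^ (i + 1) * (2 * d + 1) := by
      have : 2 ^ (i + 1) * (2 * d + 1) = 2 ^ (i + 2) * d + 2 ^ (i + 1) := by ring
      omega
    have p4 : a + (u.length + 1 + h.length) = 2 ^ (k' + 1) * (2 * n' + 1) := by
      have : 2 ^ (k' + 1) * (2 * n' + 1) + 2 ^ k' = 2 ^ k' * (4 * n' + 3) := by ring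
      omega
    obtain ⟨q1, -⟩ := uniq (by omega) (by omega) (p1.symm.trans p2)
    obtain ⟨q2, -⟩ := uniq (by omega) (by omega) (p3.symm.trans p4)
    have q3 : k = i := by omega
    have q4 : k' = i := by omega
    subst q3
    subst q4
    rw [p1] at h9
    have h10 := letter_true _ _ (by omega) h9
    obtain ⟨d', rfl⟩ : ∃ d', d = 2 * d' := ⟨d / 2, by omega⟩
    refine ⟨k' + 1, 2 ^ (k' + 2) * (2 * d'), ⟨d', by ring⟩, ?_, ?_⟩
    · have : (2 : ℕ) ^ (k' + 1 + 1) = 2 * 2 ^ (k' + 1) := by ring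
      omega
    · have : (2 : ℕ) ^ (k' + 1 + 2) = 4 * 2 ^ (k' + 1) := by ring
      omega

end XAV2

theorem t_AV2 (hAV1 : S_AV1) : S_AV2 := by
  intro a len ha h
  have h1 := XAV2.key hAV1 (fc Wf a len) h a ha (by rw [XAV2.fc_length])
  rwa [XAV2.fc_length] at h1

end Pool.Agent.H662.UA
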