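import Pool.Agent.H662.UA.Stm

set_option autoImplicit false

namespace Pool.Agent.H662.UA

namespace XCF

open Symbol

/-- the nonterminals: `none` for `LL`, `some none` for `HH`, `some (some b)` for `Tr b` -/
abbrev NN : Type := Option (Option Bool)

/-- the rules with the parameters `a`, `b` -/
def rl (a b : Bool) : List (ContextFreeRule Lt NN) :=
  [⟨none, [terminal (lf a), terminal (lf b)]⟩,
   ⟨none, [terminal (nd a), terminal (nd b)]⟩,
   ⟨none, [terminal (lf a), terminal (nd b), terminal (lf a)]⟩,
   ⟨none, [terminal (nd b), nonterminal (some none), terminal (nd b)]⟩,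
   ⟨some none, [terminal (lf true), terminal (nd b), terminal (lf false)]⟩,
   ⟨some none, [nonterminal (some (some false)), terminal (nd true), nonterminal (some none),
      terminal (nd false), nonterminal (some (some true))]⟩,
   ⟨some (some b), [terminal (lf b)]⟩,
   ⟨some (some b), [nonterminal (some (some false)), terminal (nd b),
      nonterminal (some (some true))]⟩]

/-- the grammar -/
def gr : ContextFreeGrammar Lt where
  NT := NN
  initial := none
  rules := (Finset.univ : Finset (Bool × Bool)).biUnion fun x => (rl x.1 x.2).toFinset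

theorem mem_rules {r : ContextFreeRule Lt NN} : r ∈ gr.rules ↔ ∃ a b, r ∈ rl a b := by
  show r ∈ ((Finset.univ : Finset (Bool × Bool)).biUnion fun x => (rl x.1 x.2).toFinset) ↔ _
  rw [Finset.mem_biUnion]
  constructor
  · rintro ⟨x, -, h⟩
    exact ⟨x.1, x.2, List.mem_toFinset.1 h⟩
  · rintro ⟨a, b, h⟩
    exact ⟨(a, b), Finset.mem_univ _, List.mem_toFinset.2 h⟩

/-- the words generated by a symbol -/
def sem : Symbol Lt NN → List Lt → Prop
  | terminal t, w => w = [t]
  | nonterminal none, w => LL w
  | nonterminal (some none), w => HH w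
  | nonterminal (some (some b)), w => Tr b w

/-- the words generated by a list of symbols -/
def Sem : List (Symbol Lt NN) → List Lt → Prop
  | [], w => w = []
  | s :: ss, w => ∃ u v, w = u ++ v ∧ sem s u ∧ Sem ss v

theorem sem_append (p q : List (Symbol Lt NN)) (w : List Lt) :
    Sem (p ++ q) w ↔ ∃ u v, w = u ++ v ∧ Sem p u ∧ Sem q v := by
  induction p generalizing w with
  | nil =>
    constructor
    · intro h
      exact ⟨[], w, rfl, rfl, h⟩
    · rintro ⟨u, v, rfl, h1, h2⟩
      have h3 : u = [] := h1
      subst h3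
      exact h2
  | cons s p ih =>
    constructor
    · rintro ⟨u, v, rfl, h1, h2⟩
      obtain ⟨x, y, rfl, h3, h4⟩ := (ih v).1 h2
      exact ⟨u ++ x, y, by rw [List.append_assoc], ⟨u, x, rfl, h1, h3⟩, h4⟩
    · rintro ⟨u, v, rfl, ⟨x, y, rfl, h1, h2⟩, h3⟩
      exact ⟨x, y ++ v, by rw [List.append_assoc], h1, (ih _).2 ⟨y, v, rfl, h2, h3⟩⟩

theorem sem_terminals (w : List Lt) : Sem (w.map terminal) w := by
  induction w with
  | nil => rfl
  | cons t w ih => exact ⟨[t], w, rfl, rfl, ih⟩

theorem sem_single (s : Symbol Lt NN) (w : List Lt) : Sem [s] w ↔ sem s w := by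
  constructor
  · rintro ⟨u, v, rfl, h1, h2⟩
    have h3 : v = [] := h2
    subst h3
    rw [List.append_nil]
    exact h1
  · intro h
    exact ⟨w, [], (List.append_nil w).symm, h, rfl⟩

theorem sem_rule {r : ContextFreeRule Lt NN} (hr : r ∈ gr.rules) {w : List Lt}
    (h : Sem r.output w) : sem (nonterminal r.input) w := by
  obtain ⟨a, b, hr⟩ := mem_rules.1 hr
  simp only [rl, List.mem_cons, List.not_mem_nil, or_false] at hr
  rcases hr with rfl | rfl | rfl | rfl | rfl | rfl | rfl | rfl
  · obtain ⟨_, _, rfl, rfl, _, _, rfl, rfl, rfl⟩ := h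
    exact LL.ll a b
  · obtain ⟨_, _, rfl, rfl, _, _, rfl, rfl, rfl⟩ := h
    exact LL.nn a b
  · obtain ⟨_, _, rfl, rfl, _, _, rfl, rfl, _, _, rfl, rfl, rfl⟩ := h
    exact LL.lnl a b
  · obtain ⟨_, _, rfl, rfl, u, _, rfl, hu, _, _, rfl, rfl, rfl⟩ := h
    exact LL.alt b u hu
  · obtain ⟨_, _, rfl, rfl, _, _, rfl, rfl, _, _, rfl, rfl, rfl⟩ := h
    exact HH.base b
  · obtain ⟨u, _, rfl, hu, _, _, rfl, rfl, h, _, rfl, hh, _, _, rfl, rfl, v, _, rfl, hv, rfl⟩ := h
    show HH _
    have h1 := HH.step u h v hu hh hv
    simpa using h1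
  · obtain ⟨_, _, rfl, rfl, rfl⟩ := h
    exact Tr.leaf b
  · obtain ⟨u, _, rfl, hu, _, _, rfl, rfl, v, _, rfl, hv, rfl⟩ := h
    show Tr b _
    have h1 := Tr.node b u v hu hv
    simpa using h1

theorem sem_produces {p q : List (Symbol Lt NN)} (h : gr.Produces p q) {w : List Lt}
    (hq : Sem q w) : Sem p w := by
  obtain ⟨r, hr, h⟩ := h
  obtain ⟨x, y, rfl, rfl⟩ := h.exists_parts
  obtain ⟨u, v, rfl, h1, h2⟩ := (sem_append _ _ _).1 hq
  obtain ⟨u1, u2, rfl, h3, h4⟩ := (sem_append _ _ _).1 h1
  exact (sem_append _ _ _).2 ⟨_, _, rfl, (sem_append _ _ _).2 ⟨_, _, rfl, h3,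
    (sem_single _ _).2 (sem_rule hr h4)⟩, h2⟩

theorem sem_derives {p q : List (Symbol Lt NN)} (h : gr.Derives p q) {w : List Lt}
    (hq : Sem q w) : Sem p w := by
  induction h with
  | refl => exact hq
  | tail _ h2 ih => exact ih (sem_produces h2 hq)

theorem der_app {u u' v v' : List (Symbol Lt NN)} (h1 : gr.Derives u u') (h2 : gr.Derives v v') :
    gr.Derives (u ++ v) (u' ++ v') :=
  (h1.append_right v).trans (h2.append_left u')

theorem der_rule {r : ContextFreeRule Lt NN} {a b : Bool} (hr : r ∈ rl a b) :
    gr.Derives [nonterminal r.input] r.output :=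
  ContextFreeGrammar.Produces.single ⟨r, mem_rules.2 ⟨a, b, hr⟩,
    ContextFreeRule.Rewrites.input_output⟩

theorem der_T {b : Bool} {w : List Lt} (h : Tr b w) :
    gr.Derives [nonterminal (some (some b))] (w.map terminal) := by
  induction h with
  | leaf b =>
    exact der_rule (r := ⟨some (some b), [terminal (lf b)]⟩) (a := false) (b := b) (by simp [rl])
  | node b u v _ _ ih1 ih2 =>
    have h0 := der_rule (r := ⟨some (some b), [nonterminal (some (some false)), terminal (nd b),
      nonterminal (some (some true))]⟩) (a := false) (b := b) (by simp [rl])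
    refine ContextFreeGrammar.Derives.trans h0 ?_
    rw [List.map_append, List.map_append]
    exact der_app (der_app ih1 (ContextFreeGrammar.Derives.refl [terminal (nd b)])) ih2

theorem der_H {w : List Lt} (h : HH w) :
    gr.Derives [nonterminal (some none)] (w.map terminal) := by
  induction h with
  | base x =>
    exact der_rule (r := ⟨some none, [terminal (lf true), terminal (nd x), terminal (lf false)]⟩)
      (a := false) (b := x) (by simp [rl])
  | step u h v hu _ hv ih =>
    have h0 := der_rule (r := ⟨some none, [nonterminal (some (some false)), terminal (nd true),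
      nonterminal (some none), terminal (nd false), nonterminal (some (some true))]⟩)
      (a := false) (b := false) (by simp [rl])
    refine ContextFreeGrammar.Derives.trans h0 ?_
    rw [List.map_append, List.map_append, List.map_append, List.map_append]
    exact der_app (der_app (der_app (der_app (der_T hu)
      (ContextFreeGrammar.Derives.refl [terminal (nd true)])) ih)
      (ContextFreeGrammar.Derives.refl [terminal (nd false)])) (der_T hv)

theorem der_L {w : List Lt} (h : LL w) : gr.Derives [nonterminal none] (w.map terminal) := by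
  cases h with
  | ll a b =>
    exact der_rule (r := ⟨none, [terminal (lf a), terminal (lf b)]⟩) (a := a) (b := b)
      (by simp [rl])
  | nn a b =>
    exact der_rule (r := ⟨none, [terminal (nd a), terminal (nd b)]⟩) (a := a) (b := b)
      (by simp [rl])
  | lnl a x =>
    exact der_rule (r := ⟨none, [terminal (lf a), terminal (nd x), terminal (lf a)]⟩) (a := a)
      (b := x) (by simp [rl])
  | alt b h hh =>
    have h0 := der_rule (r := ⟨none, [terminal (nd b), nonterminal (some none),
      terminal (nd b)]⟩) (a := false) (b := b) (by simp [rl])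
    refine ContextFreeGrammar.Derives.trans h0 ?_
    rw [List.map_append, List.map_append]
    exact der_app (der_app (ContextFreeGrammar.Derives.refl [terminal (nd b)]) (der_H hh))
      (ContextFreeGrammar.Derives.refl [terminal (nd b)])

end XCF

open XCF in
theorem t_CF : S_CF := by
  refine ⟨gr, ?_⟩
  ext w
  constructor
  · intro h
    have h1 : gr.Derives [Symbol.nonterminal none] (w.map Symbol.terminal) := h
    exact (sem_single _ _).1 (sem_derives h1 (sem_terminals w))
  · intro h
    exact der_L h

end Pool.Agent.H662.UA
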