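import Pool.Agent.H662.UA.Stm

set_option autoImplicit false

/-!
# Project UA, PE: every periodic sequence contains a word of the language
-/

namespace Pool.Agent.H662.UA

namespace XPE

theorem fc_add (x : ℕ → Lt) (a m n : ℕ) : fc x a (m + n) = fc x a m ++ fc x (a + m) n := by
  unfold fc
  rw [List.range_add, List.map_append, List.map_map]
  congr 1
  apply List.map_congr_left
  intro i _
  show x (a + (m + i)) = x (a + m + i)
  rw [add_assoc]

theorem fc_one (x : ℕ → Lt) (a : ℕ) : fc x a 1 = [x a] := by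
  simp [fc]

/-- parity as a letter -/
def od (t : ℕ) : Bool := decide (t % 2 = 1)

theorem od_succ (t : ℕ) : od (t + 1) = !(od t) := by
  unfold od
  rcases Nat.mod_two_eq_zero_or_one t with h | h
  · have h1 : (t + 1) % 2 = 1 := by omega
    simp [h, h1]
  · have h1 : (t + 1) % 2 = 0 := by omega
    simp [h, h1]

theorem od_even (t : ℕ) : od (2 * t) = false := by
  unfold od
  have h1 : (2 * t) % 2 = 0 := by omega
  simp [h1]

theorem od_odd (t : ℕ) : od (2 * t + 1) = true := by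
  unfold od
  have h1 : (2 * t + 1) % 2 = 1 := by omega
  simp [h1]

/-- the invariant -/
structure Inv (x : ℕ → Lt) (M s : ℕ) : Prop where
  A : ∀ t, Tr (od t) (fc x (s + 2 * (M + 1) * t) (2 * M + 1))
  B : ∀ t, (x (s + 2 * (M + 1) * t + M)).2 = od t
  C : ∀ t, (x (s + 2 * (M + 1) * t + (2 * M + 1))).1 = true
  D : ∀ t, HH (fc x (s + 2 * (M + 1) * (2 * t + 1)) (4 * M + 3))

/-- the step -/
theorem step {x : ℕ → Lt} (h : ∀ a len, ¬ LL (fc x a len)) {M s : ℕ} (I : Inv x M s) :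
    ∃ s', Inv x (2 * M + 1) s' := by
  -- the letters between the trees `2 τ` and `2 τ + 1`
  obtain ⟨y, hy⟩ : ∃ y : ℕ → Bool, ∀ τ, y τ = (x (s + 2 * (M + 1) * (2 * τ) + (2 * M + 1))).2 :=
    ⟨fun τ => _, fun _ => rfl⟩
  have hY : ∀ τ, x (s + 2 * (M + 1) * (2 * τ) + (2 * M + 1)) = nd (y τ) := by
    intro τ
    have h1 := I.C (2 * τ)
    apply Prod.ext
    · exact h1
    · exact (hy τ).symm
  have halt : ∀ τ, y (τ + 1) = !(y τ) := by
    intro τ
    by_contra hcon
    have hb : y (τ + 1) = y τ := by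
      revert hcon
      cases y (τ + 1) <;> cases y τ <;> simp
    apply h (s + 2 * (M + 1) * (2 * τ) + (2 * M + 1)) (1 + (4 * M + 3) + 1)
    rw [fc_add, fc_add, fc_one, fc_one, hY τ]
    have e1 : s + 2 * (M + 1) * (2 * τ) + (2 * M + 1) + 1 = s + 2 * (M + 1) * (2 * τ + 1) := by ring
    have e2 : s + 2 * (M + 1) * (2 * τ) + (2 * M + 1) + (1 + (4 * M + 3)) =
        s + 2 * (M + 1) * (2 * (τ + 1)) + (2 * M + 1) := by ring
    rw [e1, e2, hY (τ + 1), hb]
    exact LL.alt _ _ (I.D τ)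
  obtain ⟨σ, hσ⟩ : ∃ σ, y σ = false := by
    cases h0 : y 0 with
    | false => exact ⟨0, h0⟩
    | true =>
      refine ⟨1, ?_⟩
      have := halt 0
      rw [h0] at this
      simpa using this
  have hyt : ∀ t, y (σ + t) = od t := by
    intro t
    induction t with
    | zero => rw [add_zero, hσ]; rfl
    | succ t ih => rw [← add_assoc, halt, ih, od_succ]
  refine ⟨s + 4 * (M + 1) * σ, ?_⟩
  have e0 : ∀ t, s + 4 * (M + 1) * σ + 2 * (2 * M + 1 + 1) * t =
      s + 2 * (M + 1) * (2 * (σ + t)) := fun t => by ring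
  constructor
  · intro t
    rw [e0 t]
    have e1 : 2 * (2 * M + 1) + 1 = (2 * M + 1) + 1 + (2 * M + 1) := by ring
    have e2 : s + 2 * (M + 1) * (2 * (σ + t)) + (2 * M + 1 + 1) =
        s + 2 * (M + 1) * (2 * (σ + t) + 1) := by ring
    rw [e1, fc_add, fc_add, fc_one, hY, e2, hyt]
    have h1 := I.A (2 * (σ + t))
    rw [od_even] at h1
    have h2 := I.A (2 * (σ + t) + 1)
    rw [od_odd] at h2
    exact Tr.node _ _ _ h1 h2
  · intro t
    rw [e0 t, hY, ← hyt t]
    rfl
  · intro t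
    rw [e0 t]
    have e2 : s + 2 * (M + 1) * (2 * (σ + t)) + (2 * (2 * M + 1) + 1) =
        s + 2 * (M + 1) * (2 * (σ + t) + 1) + (2 * M + 1) := by ring
    rw [e2]
    exact I.C _
  · intro t
    rw [e0 (2 * t + 1)]
    obtain ⟨τ, hτ⟩ : ∃ τ, τ = σ + (2 * t + 1) := ⟨_, rfl⟩
    have hy1 : y τ = true := by rw [hτ, hyt, od_odd]
    have hy2 : y (τ + 1) = false := by rw [halt, hy1]; rfl
    rw [← hτ]
    have e1 : 4 * (2 * M + 1) + 3 = (2 * M + 1) + 1 + (4 * M + 3) + 1 + (2 * M + 1) := by ring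
    have e2 : s + 2 * (M + 1) * (2 * τ) + (2 * M + 1 + 1) =
        s + 2 * (M + 1) * (2 * τ + 1) := by ring
    have e3 : s + 2 * (M + 1) * (2 * τ) + (2 * M + 1 + 1 + (4 * M + 3)) =
        s + 2 * (M + 1) * (2 * (τ + 1)) + (2 * M + 1) := by ring
    have e4 : s + 2 * (M + 1) * (2 * τ) + (2 * M + 1 + 1 + (4 * M + 3) + 1) =
        s + 2 * (M + 1) * (2 * (τ + 1) + 1) := by ring
    rw [e1, fc_add, fc_add, fc_add, fc_add, fc_one, fc_one, e2, e3, e4, hY, hY, hy1, hy2]
    have h1 := I.A (2 * τ)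
    rw [od_even] at h1
    have h2 := I.A (2 * (τ + 1) + 1)
    rw [od_odd] at h2
    exact HH.step _ _ _ h1 (I.D τ) h2

theorem fst_alt {x : ℕ → Lt} (h : ∀ a len, ¬ LL (fc x a len)) (i : ℕ) :
    (x (i + 1)).1 = !(x i).1 := by
  have e : fc x i (1 + 1) = [x i, x (i + 1)] := by
    rw [fc_add, fc_one, fc_one]
    rfl
  have h1 := h i (1 + 1)
  rw [e] at h1
  by_contra hcon
  have hb : (x (i + 1)).1 = (x i).1 := by
    revert hcon
    cases (x (i + 1)).1 <;> cases (x i).1 <;> simp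
  apply h1
  cases h2 : (x i).1 with
  | false =>
    have e1 : x i = lf (x i).2 := Prod.ext h2 rfl
    have e2 : x (i + 1) = lf (x (i + 1)).2 := Prod.ext (hb.trans h2) rfl
    rw [e1, e2]
    exact LL.ll _ _
  | true =>
    have e1 : x i = nd (x i).2 := Prod.ext h2 rfl
    have e2 : x (i + 1) = nd (x (i + 1)).2 := Prod.ext (hb.trans h2) rfl
    rw [e1, e2]
    exact LL.nn _ _

theorem snd_alt {x : ℕ → Lt} (h : ∀ a len, ¬ LL (fc x a len)) (i : ℕ) (hi : (x i).1 = false) :
    (x (i + 2)).1 = false ∧ (x (i + 2)).2 = !(x i).2 := by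
  have h1 := fst_alt h i
  have h2 := fst_alt h (i + 1)
  rw [h1, hi] at h2
  have h2' : (x (i + 2)).1 = false := by simpa using h2
  refine ⟨h2', ?_⟩
  have e : fc x i (1 + 1 + 1) = [x i, x (i + 1), x (i + 2)] := by
    rw [fc_add, fc_add, fc_one, fc_one, fc_one]
    rfl
  have h3 := h i (1 + 1 + 1)
  rw [e] at h3
  by_contra hcon
  have hb : (x (i + 2)).2 = (x i).2 := by
    revert hcon
    cases (x (i + 2)).2 <;> cases (x i).2 <;> simp
  apply h3
  have e1 : x i = lf (x i).2 := Prod.ext hi rfl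
  have e2 : x (i + 1) = nd (x (i + 1)).2 := Prod.ext (by rw [h1, hi]; rfl) rfl
  have e3 : x (i + 2) = lf (x i).2 := Prod.ext h2' hb
  rw [e3, e2, e1]
  exact LL.lnl _ _

/-- the base -/
theorem base {x : ℕ → Lt} (h : ∀ a len, ¬ LL (fc x a len)) : ∃ s, Inv x 0 s := by
  obtain ⟨i, hi⟩ : ∃ i, (x i).1 = false := by
    cases h0 : (x 0).1 with
    | false => exact ⟨0, h0⟩
    | true =>
      refine ⟨1, ?_⟩
      have := fst_alt h 0
      rw [h0] at this
      simpa using this
  obtain ⟨s, hs1, hs2⟩ : ∃ s, (x s).1 = false ∧ (x s).2 = false := by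
    cases h0 : (x i).2 with
    | false => exact ⟨i, hi, h0⟩
    | true =>
      obtain ⟨g1, g2⟩ := snd_alt h i hi
      rw [h0] at g2
      exact ⟨i + 2, g1, by simpa using g2⟩
  have key : ∀ t, (x (s + 2 * t)).1 = false ∧ (x (s + 2 * t)).2 = od t := by
    intro t
    induction t with
    | zero => exact ⟨hs1, hs2⟩
    | succ t ih =>
      obtain ⟨g1, g2⟩ := snd_alt h (s + 2 * t) ih.1
      rw [ih.2] at g2
      have e : s + 2 * (t + 1) = s + 2 * t + 2 := by ring
      rw [e]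
      exact ⟨g1, by rw [g2, od_succ]⟩
  have keyl : ∀ t, x (s + 2 * t) = lf (od t) := fun t => Prod.ext (key t).1 (key t).2
  have keyn : ∀ t, (x (s + 2 * t + 1)).1 = true := by
    intro t
    rw [fst_alt h, (key t).1]
    rfl
  refine ⟨s, ?_⟩
  constructor
  · intro t
    have e : s + 2 * (0 + 1) * t = s + 2 * t := by ring
    rw [e, show 2 * 0 + 1 = 1 by norm_num, fc_one, keyl]
    exact Tr.leaf _
  · intro t
    have e : s + 2 * (0 + 1) * t + 0 = s + 2 * t := by ring
    rw [e]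
    exact (key t).2
  · intro t
    have e : s + 2 * (0 + 1) * t + (2 * 0 + 1) = s + 2 * t + 1 := by ring
    rw [e]
    exact keyn t
  · intro t
    have e : s + 2 * (0 + 1) * (2 * t + 1) = s + 2 * (2 * t + 1) := by ring
    have e3 : s + 2 * (2 * t + 1) + (1 + 1) = s + 2 * (2 * (t + 1)) := by ring
    have e4 : fc x (s + 2 * (2 * t + 1)) (1 + 1 + 1) =
        [lf true, nd (x (s + 2 * (2 * t + 1) + 1)).2, lf false] := by
      rw [fc_add, fc_add, fc_one, fc_one, fc_one, e3, keyl, keyl, od_odd, od_even]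
      have e5 : x (s + 2 * (2 * t + 1) + 1) = nd (x (s + 2 * (2 * t + 1) + 1)).2 :=
        Prod.ext (keyn _) rfl
      rw [← e5]
      rfl
    rw [e, show 4 * 0 + 3 = 1 + 1 + 1 by norm_num, e4]
    exact HH.base _

theorem all {x : ℕ → Lt} (h : ∀ a len, ¬ LL (fc x a len)) (k : ℕ) :
    ∃ M s, M + 1 = 2 ^ k ∧ Inv x M s := by
  induction k with
  | zero =>
    obtain ⟨s, hs⟩ := base h
    exact ⟨0, s, by norm_num, hs⟩
  | succ k ih =>
    obtain ⟨M, s, hM, hI⟩ := ih
    obtain ⟨s', hs'⟩ := step h hI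
    exact ⟨2 * M + 1, s', by rw [pow_succ, ← hM]; ring, hs'⟩

end XPE

open XPE in
/-- **PE** -/
theorem t_PE : S_PE := by
  intro x p hp hper
  by_contra hcon
  push Not at hcon
  obtain ⟨a, m, hm, hpm⟩ := Nat.exists_eq_two_pow_mul_odd hp.ne'
  cases a with
  | zero =>
    have key : ∀ j, (x (2 * j + 1)).1 = !(x 0).1 := by
      intro j
      induction j with
      | zero => exact fst_alt hcon 0
      | succ j ih =>
        have e : 2 * (j + 1) + 1 = 2 * j + 1 + 1 + 1 := by ring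
        rw [e, fst_alt hcon, fst_alt hcon, ih]
        simp
    obtain ⟨j, hj⟩ := hm
    have e : p = 2 * j + 1 := by rw [hpm, hj]; ring
    have h1 := hper 0
    rw [zero_add, e] at h1
    have h2 := key j
    rw [h1] at h2
    revert h2
    cases (x 0).1 <;> simp
  | succ k =>
    obtain ⟨M, s, hM, I⟩ := all hcon k
    have h1 := I.B 0
    have h2 := I.B m
    have e1 : s + 2 * (M + 1) * m + M = s + M + p := by
      rw [hpm, pow_succ, ← hM]
      ring
    have e2 : s + 2 * (M + 1) * 0 + M = s + M := by ring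
    rw [e1, hper] at h2
    rw [e2, h2] at h1
    obtain ⟨j, hj⟩ := hm
    rw [hj, od_odd] at h1
    exact absurd h1 (by simp [od])

end Pool.Agent.H662.UA
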