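import Pool.Agent.H662.UA.Stm

/-!
# Project UA: the frozen statement S14696 from the leaves
-/

set_option autoImplicit false

namespace Pool.Agent.H662.UA

namespace XRS

theorem LL_ne_nil {v : List Lt} (h : LL v) : v ≠ [] := by
  cases h with
  | ll a b => simp
  | nn a b => simp
  | lnl a x => simp
  | alt b h hh => simp

theorem fc_length (x : ℕ → Lt) (a len : ℕ) : (fc x a len).length = len := by
  unfold fc
  rw [List.length_map, List.length_range]

theorem fc_getElem (x : ℕ → Lt) (a len i : ℕ) (h : i < (fc x a len).length) :
    (fc x a len)[i] = x (a + i) := by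
  simp [fc]

theorem fc_append (x : ℕ → Lt) (a l₁ l₂ : ℕ) :
    fc x a (l₁ + l₂) = fc x a l₁ ++ fc x (a + l₁) l₂ := by
  apply List.ext_getElem
  · rw [List.length_append, fc_length, fc_length, fc_length]
  · intro i h1 h2
    rw [fc_getElem]
    by_cases hi : i < l₁
    · rw [List.getElem_append_left (by rw [fc_length]; exact hi), fc_getElem]
    · rw [List.getElem_append_right (by rw [fc_length]; omega), fc_getElem, fc_length]
      congr 1
      omega

theorem infix_fc (x : ℕ → Lt) (a len : ℕ) (v : List Lt) (h : v <:+: fc x a len) :
    ∃ i len', v = fc x (a + i) len' := by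
  obtain ⟨s, t, hst⟩ := h
  refine ⟨s.length, v.length, ?_⟩
  apply List.ext_getElem
  · rw [fc_length]
  · intro i h1 h2
    rw [fc_getElem]
    have h3 : s.length + i < (s ++ v ++ t).length := by
      rw [List.length_append, List.length_append]
      omega
    have h4 : (s ++ v ++ t)[s.length + i] = v[i] := by
      rw [List.getElem_append_left (by rw [List.length_append]; omega),
        List.getElem_append_right (by omega)]
      congr 1
      omega
    have h5 : s.length + i < (fc x a len).length := by
      rw [← hst]
      exact h3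
    have h6 : (s ++ v ++ t)[s.length + i] = (fc x a len)[s.length + i] := by
      simp only [hst]
    rw [← h4, h6, fc_getElem]
    congr 1
    omega

theorem fc_infix (x : ℕ → Lt) (a len m : ℕ) (h : a + len ≤ m) : fc x a len <:+: fc x 0 m := by
  obtain ⟨k, rfl⟩ := Nat.exists_eq_add_of_le h
  rw [fc_append, fc_append]
  refine ⟨fc x 0 a, fc x (0 + (a + len)) k, ?_⟩
  rw [Nat.zero_add a]

/-- the periodic sequence of a word -/
def per (w : List Lt) (d : Lt) (i : ℕ) : Lt := w.getD (i % w.length) d

theorem per_add (w : List Lt) (d : Lt) (i : ℕ) : per w d (i + w.length) = per w d i := by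
  unfold per
  rw [Nat.add_mod_right]

theorem fc_per_shift (w : List Lt) (d : Lt) (a len : ℕ) :
    fc (per w d) (a + w.length) len = fc (per w d) a len := by
  apply List.ext_getElem
  · rw [fc_length, fc_length]
  · intro i h1 h2
    rw [fc_getElem, fc_getElem]
    have e : a + w.length + i = (a + i) + w.length := by omega
    rw [e, per_add]

theorem fc_per_word (w : List Lt) (d : Lt) : fc (per w d) 0 w.length = w := by
  apply List.ext_getElem
  · rw [fc_length]
  · intro i h1 h2
    rw [fc_getElem, Nat.zero_add]
    unfold per
    rw [Nat.mod_eq_of_lt h2]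
    exact List.getD_eq_getElem w d h2

theorem flatten_eq (w : List Lt) (d : Lt) (n : ℕ) :
    (List.replicate n w).flatten = fc (per w d) 0 (n * w.length) := by
  induction n with
  | zero => simp [fc]
  | succ n ih =>
    rw [List.replicate_succ, List.flatten_cons, ih]
    have e : (n + 1) * w.length = w.length + n * w.length := by ring
    rw [e, fc_append, fc_per_word, fc_per_shift]

end XRS

/-- the frozen statement S14696 from the leaves -/
theorem t_RS (hCF : S_CF) (hAV : S_AV) (hPE : S_PE) : S_RS := by
  intro H
  have h1 := (H Lt LG hCF (fun v hv => XRS.LL_ne_nil hv)).2 (by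
    intro w hw
    have hp : 0 < w.length := List.length_pos_of_ne_nil hw
    obtain ⟨a, len, hL⟩ := hPE (XRS.per w (lf false)) w.length hp
      (fun i => XRS.per_add w (lf false) i)
    refine ⟨a + len, fc (XRS.per w (lf false)) a len, hL, ?_⟩
    rw [XRS.flatten_eq w (lf false)]
    exact XRS.fc_infix _ a len _ (Nat.le_mul_of_pos_right _ hp))
  have h2 : (Set.range (fun len : ℕ => fc Wf 1 len)).Infinite := by
    apply Set.infinite_range_of_injective
    intro m n hmn
    have h3 := congrArg List.length hmn
    simp only [XRS.fc_length] at h3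
    exact h3
  apply h2
  refine h1.subset ?_
  rintro _ ⟨len, rfl⟩
  rintro ⟨v, hv, hvi⟩
  obtain ⟨i, len', he⟩ := XRS.infix_fc Wf 1 len v hvi
  have hv' : LL v := hv
  rw [he] at hv'
  exact hAV (1 + i) len' (Nat.le_add_right 1 i) hv'

end Pool.Agent.H662.UA
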