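import Pool.Agent.H662.UA.AV
import Pool.Agent.H662.UA.AV1
import Pool.Agent.H662.UA.AV2
import Pool.Agent.H662.UA.CF
import Pool.Agent.H662.UA.PE
import Pool.Agent.H662.UA.RS

/-! # Assembly of the proof of S14696 -/

set_option autoImplicit false

namespace Pool.Agent.H662.UA

theorem main : S_RS := t_RS t_CF (t_AV (t_AV2 t_AV1)) t_PE

end Pool.Agent.H662.UA
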