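import Mathlib

/-!
# Definitions and statements for S14696 (MP_51f845_lc), negative answer

A context-free language that is periodically unavoidable but avoidable.

Letters: leaves `l, r` and inner nodes `L, R`. Perfect binary trees are written in-order, the letter of a
node says whether it is a left (`l, L`) or a right (`r, R`) child: `T_0^L = l`, `T_0^R = r`,
`T_{k+1}^Y = T_k^L Y T_k^R`. The forbidden words: two adjacent leaves, two adjacent inner nodes, `l X l`, `r X r`,
and `Y h Y` for `h` in `H`, where `H -> r X l | S^L R H L S^R`, `S^L -> l | S^L L S^R`, `S^R -> r | S^L R S^R`. The infinite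
perfect tree (a paperfolding sequence) avoids them, and a word avoiding them is forced to have a hierarchical
structure which is impossible for a periodic word.
-/

set_option autoImplicit false

namespace Pool.Agent.H662.UA

/-- letters: `(false, b)` is a leaf, `(true, b)` an inner node; `b = false` left child, `b = true` right child -/
abbrev Lt := Bool × Bool

/-- leaf -/
def lf (b : Bool) : Lt := (false, b)
/-- inner node -/
def nd (b : Bool) : Lt := (true, b)

/-- words of trees whose root is a left child (`b = false`) or right child (`b = true`) -/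
inductive Tr : Bool → List Lt → Prop
  | leaf (b : Bool) : Tr b [lf b]
  | node (b : Bool) (u v : List Lt) : Tr false u → Tr true v → Tr b (u ++ [nd b] ++ v)

/-- the middle words -/
inductive HH : List Lt → Prop
  | base (x : Bool) : HH [lf true, nd x, lf false]
  | step (u h v : List Lt) : Tr false u → HH h → Tr true v → HH (u ++ [nd true] ++ h ++ [nd false] ++ v)

/-- the language -/
inductive LL : List Lt → Prop
  | ll (a b : Bool) : LL [lf a, lf b]
  | nn (a b : Bool) : LL [nd a, nd b]
  | lnl (a x : Bool) : LL [lf a, nd x, lf a]
  | alt (b : Bool) (h : List Lt) : HH h → LL ([nd b] ++ h ++ [nd b])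

/-- the language as a `Language` -/
def LG : Language Lt := {w | LL w}

/-- CF. Proof: grammar with nonterminals `S, T0, T1, H` (for example `Fin 4`), the rules being the constructors
above: `S -> lf a lf b | nd a nd b | lf a nd x lf a | nd b H nd b`, `H -> lf true, nd x, lf false | T0 (nd true) H (nd false) T1`,
`T0 -> lf false | T0 (nd false) T1`, `T1 -> lf true | T0 (nd true) T1`. For the direction 'derivable implies LL' define
for each symbol the set of words it generates (a terminal generates itself; the nonterminals `LL, Tr false,
Tr true, HH`), extend to lists of symbols by concatenation, and show that this is invariant under backward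
rewriting; for the converse use that derivations may be put in context (`Derives.append_left` etc.). -/
def S_CF : Prop := LG.IsContextFree

/-- the infinite perfect tree: position `n ≥ 1`, `n = 2^k * m` with `m` odd; leaf iff `k = 0`; left child iff
`m % 4 = 1` -/
def Wf (n : ℕ) : Lt := (decide (n % 2 = 0), decide ((n / 2 ^ (padicValNat 2 n)) % 4 = 3))

/-- the factor of length `len` of `x` at position `a` -/
def fc (x : ℕ → Lt) (a len : ℕ) : List Lt := (List.range len).map (fun i => x (a + i))

/-- AV1. Proof: step (1) in the docstring of `S_AV`. -/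
def S_AV1 : Prop := ∀ (b : Bool) (a len : ℕ), 1 ≤ a → Tr b (fc Wf a len) →
  ∃ k m, m % 4 = (if b = true then 3 else 1) ∧ a + 2 ^ k = 2 ^ k * m + 1 ∧ len + 1 = 2 ^ (k + 1)

/-- AV2 (from S_AV1). Proof: step (2) in the docstring of `S_AV`. -/
def S_AV2 : Prop := ∀ (a len : ℕ), 1 ≤ a → HH (fc Wf a len) →
  ∃ i c, 2 ^ (i + 2) ∣ c ∧ a + 2 ^ (i + 1) = c + 1 ∧ len + 1 = 2 ^ (i + 2)

/-- AV (from S_AV2). The infinite tree avoids the language. Proof: (1) if `Tr b (fc Wf a len)`, `a ≥ 1`, then for some `k`, `c`:
`c = 2^k * m`, `m % 4 = 1` if `b = false` and `m % 4 = 3` if `b = true`, `a + 2^k = c + 1`, `len = 2^(k+1) - 1` (induction on `Tr`; for a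
node: the left part ends at `c' + 2^k' - 1` with `c' = 2^k' m'`, `m' % 4 = 1`, so the next position `c' + 2^k'` has
2-adic valuation exactly `k'+1`; the right part begins at `c'' - 2^k'' + 1` with `m'' % 4 = 3`, so the previous
position `c'' - 2^k''` has valuation exactly `k''+1`; it is the same position, so `k' = k''`). (2) if
`HH (fc Wf a len)` then for some `i`, `c`: `2^(i+2) ∣ c`, `a + 2^(i+1) = c + 1`, `len = 2^(i+2) - 1` (induction; the position
`c - 2^(i+1)` has valuation `i+1` and letter `nd true`, hence `2^(i+3) ∣ c`; by (1) the part `u` has height `i`,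
length `2^(i+1) - 1`; the same for `v`). (3) For `alt`: the letters at `c - 2^(i+1)` and `c + 2^(i+1)` are different,
because their odd parts differ by 2 modulo 4. The other cases are easy (`n` odd: `n % 4`). -/
def S_AV : Prop := ∀ a len, 1 ≤ a → ¬ LL (fc Wf a len)

/-- PE. Every periodic sequence contains a word of the language. Proof: suppose not, `p` the period. By
induction on `k` there is `c` with `2^k ≤ c + 1` such that for all `t`: `Tr (t odd) (fc x (c + 2^(k+1)*t - (2^k - 1)) (2^(k+1) - 1))`,
`x (c + 2^(k+1)*t) = (k ≠ 0, t odd)` and `(x (c + 2^(k+1)*t + 2^k)).1 = true`. `k = 0`: leaves and inner nodes alternate, the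
leaves alternate between left and right. Step: `Y_t` the letter at `d_t = c + 2^k + 2^(k+2)*t` (between the trees
number `2t` and `2t+1`); if `Y_t = Y_{t+1}` then the factor from `d_t` to `d_{t+1}` is `Y_t h Y_{t+1}` with
`h = T_k^R Z T_k^L` in `HH` (by iterating: need also that `T_k^R Z T_k^L` is in `HH`, so carry it in the induction:
for all `t`, `HH (fc x (c + 2^(k+1)*(2t+1) - (2^k - 1)) (2^(k+2) - 1))`). So `Y` alternates; the new `c` is `d_0` or `d_1`, the one
with the left letter. Contradiction: write `p = 2^a * m`, `m` odd; if `a ≥ 1` use `k = a - 1`: `x (c + p)` has `t = m` odd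
but equals `x c`, `t = 0`; if `a = 0` use `k = 0`: `x c` is a leaf and `x (c + p)` an inner node. -/
def S_PE : Prop := ∀ (x : ℕ → Lt) (p : ℕ), 0 < p → (∀ i, x (i + p) = x i) → ∃ a len, LL (fc x a len)

/-- RS (from S_CF, S_AV, S_PE): the frozen statement S14696. Proof: `α = Lt`, `L = LG`. The words of `LG` are
nonempty. The prefixes `fc Wf 1 len` show that infinitely many words avoid `LG`. For `w ≠ []`, apply S_PE to
`x i = w[i % w.length]`: a factor of `x` is a factor of some power of `w`. -/
def S_RS : Prop :=
    ¬ (∀ (α : Type) [Fintype α] (L : Language α),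
      L.IsContextFree →
      (∀ v ∈ L, v ≠ []) →
      ({u : List α | ¬ ∃ v ∈ L, v <:+: u}.Finite ↔
        ∀ w : List α, w ≠ [] →
          ∃ n : ℕ, ∃ v ∈ L, v <:+: (List.replicate n w).flatten))

end Pool.Agent.H662.UA
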